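import Pool.Agent.Helper2.NNQ.FarStm

/-! # The numerical conditions for the far parameters (MP_a70bdc_nt) -/

set_option autoImplicit false

open MeasureTheory Filter Topology Finset

namespace Pool.Agent.Helper74.NNF

open Pool.Agent.Helper2.NNF

lemma fac_small (δ C : ℝ) (hδ : 0 < δ) (hC : 0 < C) : ∀ᶠ K : ℕ in atTop,
    C * ((2 * K + 2).factorial : ℝ) ≤ ((2 : ℝ) ^ (2 ^ K : ℕ)) ^ δ := by
  have h1 : ∀ᶠ K : ℕ in atTop,
      Real.log C + ((2 * K + 2 : ℕ) : ℝ) ^ 2 ≤ δ * ((2 : ℝ) ^ K * Real.log 2) := by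
    have t2 := tendsto_pow_const_div_const_pow_of_one_lt 2 (one_lt_two : (1 : ℝ) < 2)
    have t1 := tendsto_pow_const_div_const_pow_of_one_lt 1 (one_lt_two : (1 : ℝ) < 2)
    have t0 := tendsto_pow_const_div_const_pow_of_one_lt 0 (one_lt_two : (1 : ℝ) < 2)
    have t := ((t2.const_mul 4).add (t1.const_mul 8)).add (t0.const_mul (Real.log C + 4))
    simp only [mul_zero, add_zero] at t
    have hpos : 0 < δ * Real.log 2 := mul_pos hδ (Real.log_pos one_lt_two)
    filter_upwards [t.eventually (gt_mem_nhds hpos)] with K hK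
    have h2 : (0 : ℝ) < 2 ^ K := by positivity
    have h3 : 4 * ((K : ℝ) ^ 2 / 2 ^ K) + 8 * ((K : ℝ) ^ 1 / 2 ^ K) +
        (Real.log C + 4) * ((K : ℝ) ^ 0 / 2 ^ K) =
        (Real.log C + ((2 * K + 2 : ℕ) : ℝ) ^ 2) / 2 ^ K := by
      push_cast
      field_simp
      ring
    rw [h3, div_lt_iff₀ h2] at hK
    linarith
  filter_upwards [h1] with K hK
  have h2 : ((2 * K + 2).factorial : ℝ) ≤ Real.exp (((2 * K + 2 : ℕ) : ℝ) ^ 2) := by
    have h4 : ((2 * K + 2).factorial : ℝ) ≤ ((2 * K + 2 : ℕ) : ℝ) ^ (2 * K + 2) := by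
      exact_mod_cast Nat.factorial_le_pow (2 * K + 2)
    refine h4.trans ?_
    have h3 : ((2 * K + 2 : ℕ) : ℝ) ≤ Real.exp ((2 * K + 2 : ℕ) : ℝ) := by
      have := Real.add_one_le_exp ((2 * K + 2 : ℕ) : ℝ)
      linarith
    calc ((2 * K + 2 : ℕ) : ℝ) ^ (2 * K + 2) ≤ (Real.exp ((2 * K + 2 : ℕ) : ℝ)) ^ (2 * K + 2) :=
          pow_le_pow_left₀ (Nat.cast_nonneg _) h3 _
      _ = Real.exp (((2 * K + 2 : ℕ) : ℝ) ^ 2) := by
          rw [← Real.exp_nat_mul]
          congr 1
          ring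
  calc C * ((2 * K + 2).factorial : ℝ) ≤ C * Real.exp (((2 * K + 2 : ℕ) : ℝ) ^ 2) :=
        mul_le_mul_of_nonneg_left h2 hC.le
    _ = Real.exp (Real.log C + ((2 * K + 2 : ℕ) : ℝ) ^ 2) := by
        rw [Real.exp_add, Real.exp_log hC]
    _ ≤ Real.exp (δ * ((2 : ℝ) ^ K * Real.log 2)) := Real.exp_le_exp.2 hK
    _ = ((2 : ℝ) ^ (2 ^ K : ℕ)) ^ δ := by
        rw [Real.rpow_def_of_pos (by positivity), Real.log_pow]
        congr 1
        push_cast
        ring

lemma log_tend : Tendsto (fun n : ℕ => Nat.log 2 n) atTop atTop := by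
  refine tendsto_atTop_atTop.2 fun b => ⟨2 ^ b, fun n hn => ?_⟩
  exact Nat.le_log_of_pow_le (by norm_num) hn

lemma KK_tend : Tendsto (fun n : ℕ => KK (n + 1)) atTop atTop := by
  have h := (log_tend.comp log_tend).comp (tendsto_add_atTop_nat 1)
  exact h

lemma KK_le (n : ℕ) (hn : 2 ≤ n) : 2 ^ (2 ^ KK n) ≤ n := by
  have h1 : Nat.log 2 n ≠ 0 := by
    have : 1 ≤ Nat.log 2 n := Nat.le_log_of_pow_le (by norm_num) (by simpa using hn)
    omega
  have h2 : 2 ^ KK n ≤ Nat.log 2 n := Nat.pow_log_le_self 2 h1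
  exact (Nat.pow_le_pow_right (by norm_num) h2).trans (Nat.pow_log_le_self 2 (by omega))

lemma Q_small (δ C : ℝ) (hδ : 0 < δ) (hC : 0 < C) : ∀ᶠ n : ℕ in atTop,
    C * ((2 * KK (n + 1) + 2).factorial : ℝ) ≤ ((n : ℝ) + 1) ^ δ := by
  filter_upwards [KK_tend.eventually (fac_small δ C hδ hC), eventually_ge_atTop 1] with n hn h1
  refine hn.trans ?_
  refine Real.rpow_le_rpow (by positivity) ?_ hδ.le
  exact_mod_cast KK_le (n + 1) (by omega)

lemma pos_bound (L : ℕ → ℝ) (hpos : ∀ j, 0 < L j) (hmono : ∀ᶠ j in atTop, L j ≤ L (j + 1)) :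
    ∃ c : ℝ, 0 < c ∧ ∀ j, c ≤ L j := by
  obtain ⟨J, hJ⟩ := eventually_atTop.1 hmono
  obtain ⟨i, hi, hmin⟩ := Finset.exists_min_image (Finset.range (J + 1)) L ⟨0, by simp⟩
  refine ⟨L i, hpos i, fun j => ?_⟩
  rcases le_or_gt j J with h | h
  · exact hmin j (Finset.mem_range.2 (by omega))
  · refine (hmin J (Finset.mem_range.2 (by omega))).trans ?_
    exact Nat.le_induction (P := fun k _ => L J ≤ L k) le_rfl
      (fun k hk ih => ih.trans (hJ k hk)) j h.le

/-- size of the number of children -/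
lemma mm_low (n : ℕ) (h : 2 ≤ mm n) :
    (n : ℝ) ≤ 6 * ((2 * KK (n + 1) + 2).factorial : ℝ) * mm n := by
  have hF : 0 < 4 * (2 * KK (n + 1) + 2).factorial := by positivity
  have h1 : n < 4 * (2 * KK (n + 1) + 2).factorial * (mm n + 1) := by
    have := Nat.lt_mul_div_succ n hF
    simpa [mm] using this
  have h2 : (n : ℝ) < 4 * ((2 * KK (n + 1) + 2).factorial : ℝ) * ((mm n : ℝ) + 1) := by
    exact_mod_cast h1
  have h3 : (2 : ℝ) ≤ mm n := by exact_mod_cast h
  have h4 : (0 : ℝ) < ((2 * KK (n + 1) + 2).factorial : ℝ) := by positivity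
  nlinarith

theorem t_NUM : S_NUM := by
  obtain ⟨N₀, hN₀⟩ := eventually_atTop.1 (Q_small 1 32 one_pos (by norm_num))
  have key : ∀ n : ℕ, N₀ ≤ n → 8 * (2 * KK (n + 1) + 2).factorial ≤ n := by
    intro n hn
    have h := hN₀ n hn
    rw [Real.rpow_one] at h
    have h' : 32 * (2 * KK (n + 1) + 2).factorial ≤ n + 1 := by exact_mod_cast h
    have h1 : 1 ≤ (2 * KK (n + 1) + 2).factorial := Nat.factorial_pos _
    omega
  have hmm : ∀ n : ℕ, N₀ ≤ n → 2 ≤ mm n := by
    intro n hn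
    unfold mm
    rw [Nat.le_div_iff_mul_le (by positivity)]
    have := key n hn
    linarith
  refine ⟨N₀, fun n hn => ⟨hmm n hn, ?_⟩, ?_⟩
  · have h1 := key n hn
    have h2 : mm n * (4 * (2 * KK (n + 1) + 2).factorial) ≤ n := Nat.div_mul_le_self _ _
    have h1' : 8 * ((2 * KK (n + 1) + 2).factorial : ℝ) ≤ n := by exact_mod_cast h1
    have h2' : (mm n : ℝ) * (4 * ((2 * KK (n + 1) + 2).factorial : ℝ)) ≤ n := by exact_mod_cast h2
    have h3 : ((QQ (n + 1) : ℤ) : ℝ) = ((2 * KK (n + 1) + 2).factorial : ℝ) := by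
      simp [QQ]
    rw [h3]
    nlinarith
  intro s B N hs hs1 hN hB
  set Y : ℕ → ℝ := fun j => (((N + j : ℕ) : ℝ) + 1 + B) with hY
  have hYpos : ∀ j, 0 < Y j := by
    intro j
    simp only [hY]
    push_cast
    have : (0 : ℝ) ≤ j := Nat.cast_nonneg _
    linarith
  set L : ℕ → ℝ := fun j => (∏ l ∈ range j, (mm (N + l) : ℝ)) * (1 / (24 * Y j ^ (N + j))) ^ s
    with hL
  have hprod : ∀ j, 0 < ∏ l ∈ range j, (mm (N + l) : ℝ) := by
    intro j
    refine Finset.prod_pos fun l _ => ?_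
    have := hmm (N + l) (by omega)
    exact_mod_cast (by omega : 0 < mm (N + l))
  have hLpos : ∀ j, 0 < L j := by
    intro j
    have h1 := hYpos j
    have h2 := hprod j
    simp only [hL]
    positivity
  have hmono : ∀ᶠ j in atTop, L j ≤ L (j + 1) := by
    have hD : (0 : ℝ) < 12 * (2 * Real.exp 2) ^ s := by positivity
    have hsh : Tendsto (fun j : ℕ => N + j) atTop atTop :=
      tendsto_atTop_mono (fun j => Nat.le_add_left j N) tendsto_id
    obtain ⟨R, hR⟩ := exists_nat_ge (|B|)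
    filter_upwards [hsh.eventually (Q_small (1 - s) _ (by linarith) hD),
      eventually_ge_atTop (2 * R + 2)] with j hj hjR
    have hn : N₀ ≤ N + j := by omega
    have hnR : 2 * R + 2 ≤ N + j := by omega
    have hm2 := hmm (N + j) hn
    have hmlow := mm_low (N + j) hm2
    have hYp := hYpos j
    have hprodj := hprod j
    have hYsucc : Y (j + 1) = Y j + 1 := by
      simp only [hY]
      push_cast
      ring
    obtain ⟨hB1, hB2⟩ := abs_le.1 hR
    have hcast : (2 * (R : ℝ) + 2) ≤ ((N + j : ℕ) : ℝ) := by exact_mod_cast hnR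
    set n : ℕ := N + j with hn_def
    have hYlow : (n : ℝ) / 2 ≤ Y j := by
      simp only [hY]
      rw [← hn_def]
      linarith
    have hYup : Y j + 1 ≤ 2 * ((n : ℝ) + 1) := by
      simp only [hY]
      rw [← hn_def]
      linarith
    have hX : Y (j + 1) ^ (N + (j + 1)) ≤ Y j ^ n * ((2 * Real.exp 2) * ((n : ℝ) + 1)) := by
      rw [hYsucc, show N + (j + 1) = n + 1 by omega, pow_succ]
      have h1 : (Y j + 1) ^ n ≤ Y j ^ n * Real.exp 2 := by
        have h2 : Y j + 1 ≤ Y j * Real.exp (1 / Y j) := by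
          have h3 := Real.add_one_le_exp (1 / Y j)
          have h4 : Y j * (1 / Y j + 1) = Y j + 1 := by
            rw [mul_add, mul_one_div_cancel hYp.ne', mul_one, add_comm]
          rw [← h4]
          exact mul_le_mul_of_nonneg_left h3 hYp.le
        calc (Y j + 1) ^ n ≤ (Y j * Real.exp (1 / Y j)) ^ n :=
              pow_le_pow_left₀ (by linarith) h2 _
          _ = Y j ^ n * Real.exp (n * (1 / Y j)) := by
              rw [mul_pow, ← Real.exp_nat_mul]
          _ ≤ Y j ^ n * Real.exp 2 := by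
              refine mul_le_mul_of_nonneg_left (Real.exp_le_exp.2 ?_) (by positivity)
              rw [mul_one_div, div_le_iff₀ hYp]
              linarith
      calc (Y j + 1) ^ n * (Y j + 1) ≤ (Y j ^ n * Real.exp 2) * (2 * ((n : ℝ) + 1)) :=
            mul_le_mul h1 hYup (by linarith) (by positivity)
        _ = Y j ^ n * ((2 * Real.exp 2) * ((n : ℝ) + 1)) := by ring
    have hYs : 0 < Y (j + 1) := hYpos (j + 1)
    have hstep : (1 / (24 * Y j ^ n)) ^ s ≤
        (mm n : ℝ) * (1 / (24 * Y (j + 1) ^ (N + (j + 1)))) ^ s := by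
      have h1 : 1 / (24 * Y j ^ n) ≤
          ((2 * Real.exp 2) * ((n : ℝ) + 1)) * (1 / (24 * Y (j + 1) ^ (N + (j + 1)))) := by
        rw [mul_one_div, div_le_div_iff₀ (by positivity) (by positivity)]
        linarith
      have h2 : (1 / (24 * Y j ^ n)) ^ s ≤
          ((2 * Real.exp 2) * ((n : ℝ) + 1)) ^ s *
            (1 / (24 * Y (j + 1) ^ (N + (j + 1)))) ^ s := by
        rw [← Real.mul_rpow (by positivity) (by positivity)]
        exact Real.rpow_le_rpow (by positivity) h1 hs.le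
      refine h2.trans (mul_le_mul_of_nonneg_right ?_ (by positivity))
      have hF : (0 : ℝ) < ((2 * KK (n + 1) + 2).factorial : ℝ) := by positivity
      have h3 : 12 * (2 * Real.exp 2) ^ s * ((2 * KK (n + 1) + 2).factorial : ℝ) *
          ((n : ℝ) + 1) ^ s ≤ (n : ℝ) + 1 := by
        calc _ ≤ ((n : ℝ) + 1) ^ (1 - s) * ((n : ℝ) + 1) ^ s :=
              mul_le_mul_of_nonneg_right hj (by positivity)
          _ = (n : ℝ) + 1 := by
              rw [← Real.rpow_add (by positivity)]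
              simp
      rw [Real.mul_rpow (by positivity) (by positivity)]
      have h4 : (n : ℝ) + 1 ≤ 12 * ((2 * KK (n + 1) + 2).factorial : ℝ) * mm n := by
        have : (1 : ℝ) ≤ n := by
          have : (0 : ℝ) ≤ R := Nat.cast_nonneg _
          linarith
        linarith
      have h5 : 12 * ((2 * KK (n + 1) + 2).factorial : ℝ) *
          ((2 * Real.exp 2) ^ s * ((n : ℝ) + 1) ^ s) ≤
          12 * ((2 * KK (n + 1) + 2).factorial : ℝ) * mm n := by
        refine le_trans (le_of_eq ?_) (h3.trans h4)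
        ring
      exact le_of_mul_le_mul_left h5 (by positivity)
    simp only [hL]
    rw [Finset.prod_range_succ, mul_assoc]
    exact mul_le_mul_of_nonneg_left hstep hprodj.le
  obtain ⟨c, hc, hcL⟩ := pos_bound L hLpos hmono
  refine ⟨c, hc, fun j => (hcL j).trans ?_⟩
  simp only [hL]
  refine mul_le_mul_of_nonneg_left ?_ (hprod j).le
  refine Real.rpow_le_rpow (by have := hYpos j; positivity) ?_ hs.le
  have hm2 := hmm (N + j) (by omega)
  have hmlow := mm_low (N + j) hm2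
  have h3 : ((QQ (N + j + 1) : ℤ) : ℝ) = ((2 * KK (N + j + 1) + 2).factorial : ℝ) := by
    simp [QQ]
  have hYp := hYpos j
  have hn1 : (1 : ℝ) ≤ ((N + j : ℕ) : ℝ) := by
    have h8 := key (N + j) (by omega)
    have h9 : 1 ≤ (2 * KK (N + j + 1) + 2).factorial := Nat.factorial_pos _
    exact_mod_cast (by omega : 1 ≤ N + j)
  rw [h3]
  show 1 / (24 * Y j ^ (N + j)) ≤ (mm (N + j) : ℝ) * (((2 * KK (N + j + 1) + 2).factorial : ℝ) /
    (2 * ((((N + j : ℕ) : ℝ) + 1) * Y j ^ (N + j))))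
  rw [← mul_div_assoc, div_le_div_iff₀ (by positivity) (by positivity)]
  have hP : 0 < Y j ^ (N + j) := by positivity
  nlinarith [mul_le_mul_of_nonneg_right hmlow hP.le, mul_le_mul_of_nonneg_right hn1 hP.le]

end Pool.Agent.Helper74.NNF
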